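import Pool.Agent.helper88.RQ2.Spec

/-!
# Row AR3 (project RQ, MP_bb0bb6_co)
-/

set_option autoImplicit false

open Set Matroid RadonMin

namespace RadonQ2

theorem AR3_proof : AR3_stmt := by
  intro m n hm h
  have h1 := two_mul_choose_two m
  have h2 := six_mul_choose_three (m + 1)
  have h3 := six_mul_choose_three n
  push_cast at h2
  have key : ((n : ℤ) - m) * (n - m - 1) * (n + 2 * m - 2) = 0 := by
    have e : (6 : ℤ) * ((m.choose 2 : ℤ) * n - ((m + 1).choose 3 : ℤ) * 2) = 6 * (n.choose 3 : ℤ) := by rw [h]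
    have e2 : (3 : ℤ) * ((m : ℤ) * (m - 1)) * n - 2 * (((m : ℤ) + 1) * (m + 1 - 1) * (m + 1 - 2)) = n * (n - 1) * (n - 2) := by
      rw [← h1, ← h2, ← h3]
      linarith
    linear_combination -e2
  have hm' : (2 : ℤ) ≤ m := by exact_mod_cast hm
  have hpos : (n : ℤ) + 2 * m - 2 ≠ 0 := by
    have : (0 : ℤ) ≤ n := by positivity
    omega
  rcases mul_eq_zero.1 key with h4 | h4
  · rcases mul_eq_zero.1 h4 with h5 | h5
    · left; omega
    · right; omega
  · exact absurd h4 hpos

end RadonQ2
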